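import Pool.Agent.Run7.h117.JM.Step

/-!
# Joints in matroids, sharper upper bound: the exponent
-/

set_option autoImplicit false

namespace Run7.h117.JM

open Pool.Agent.N353.Joints

lemma arith (J L : ℝ) (n : ℕ) (hn : 4 ≤ n) (hJ : 0 < J) (hL : 1 ≤ L)
    (H : 1 < J / (2 * L) → 64 * (n : ℝ) ^ 2 * L ≤ (J / (2 * L) - 1) ^ 2 →
      ((J / (2 * L) - 1) ^ 2 / (32 * (n : ℝ) ^ 2 * L)) ^ (2 ^ (n - 3) - 1) * (J / (2 * L) - 1) ≤
        n * L) :
    J ≤ 128 * (n : ℝ) ^ 2 * L ^ ((3 : ℝ) / 2 + 1 / (2 ^ (n - 1) - 2)) := by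
  have hnr : (4 : ℝ) ≤ n := by exact_mod_cast hn
  have hL0 : 0 < L := by linarith
  obtain ⟨k, hk⟩ : ∃ k : ℕ, k = 2 ^ (n - 3) - 1 := ⟨_, rfl⟩
  have h1 : 1 ≤ 2 ^ (n - 3) := Nat.one_le_two_pow
  have h2 : 2 ^ (n - 1) = 4 * (k + 1) := by
    have : 2 ^ (n - 1) = 2 ^ (n - 3) * 2 ^ 2 := by
      rw [← pow_add]; congr 1; omega
    rw [this, hk]
    omega
  have h2r : (2 : ℝ) ^ (n - 1) = 4 * (k + 1) := by exact_mod_cast h2
  rw [← hk] at H
  have hk0 : (0 : ℝ) ≤ k := Nat.cast_nonneg k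
  obtain ⟨p, hp⟩ : ∃ p : ℝ, p = (3 : ℝ) / 2 + 1 / (2 ^ (n - 1) - 2) := ⟨_, rfl⟩
  rw [← hp]
  rw [h2r] at hp
  have hden : (0 : ℝ) < 4 * (k + 1) - 2 := by linarith
  have hp32 : (3 : ℝ) / 2 ≤ p := by
    rw [hp]
    have : (0 : ℝ) ≤ 1 / (4 * (k + 1) - 2) := by positivity
    linarith
  have hpk : p * ((2 * k + 1 : ℕ) : ℝ) = ((3 * k + 2 : ℕ) : ℝ) := by
    rw [hp]
    push_cast
    field_simp
    ring
  have hLp : L ^ ((3 : ℝ) / 2) ≤ L ^ p := Real.rpow_le_rpow_of_exponent_le hL hp32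
  have hn2 : (4 : ℝ) ≤ (n : ℝ) ^ 2 := by nlinarith
  have hnn : (n : ℝ) ≤ (n : ℝ) ^ 2 := by nlinarith
  obtain ⟨D, hD⟩ : ∃ D : ℝ, D = J / (2 * L) - 1 := ⟨_, rfl⟩
  rw [← hD] at H
  have hJD : J = 2 * L * (D + 1) := by
    rw [hD]; field_simp; ring
  rcases lt_or_ge D 1 with hD1 | hD1
  · -- `J < 4 L`
    have h3 : L ≤ L ^ p := by
      conv_lhs => rw [← Real.rpow_one L]
      exact Real.rpow_le_rpow_of_exponent_le hL (by linarith)
    have h4 : J ≤ 4 * L := by rw [hJD]; nlinarith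
    have h5 : 4 * L ≤ 128 * (n : ℝ) ^ 2 * L ^ p := by
      have : (4 : ℝ) ≤ 128 * (n : ℝ) ^ 2 := by nlinarith
      exact mul_le_mul this h3 hL0.le (by positivity)
    linarith
  have hJ4 : J ≤ 4 * L * D := by rw [hJD]; nlinarith
  have hD0 : 0 < D := by linarith
  rcases lt_or_ge (D ^ 2) (64 * (n : ℝ) ^ 2 * L) with hlt | hge
  · have e1 : (L ^ ((3 : ℝ) / 2)) ^ 2 = L ^ 3 := by
      rw [← Real.rpow_natCast, ← Real.rpow_mul hL0.le]
      norm_num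
    have h3 : J ^ 2 ≤ (128 * (n : ℝ) ^ 2 * L ^ ((3 : ℝ) / 2)) ^ 2 := by
      rw [mul_pow, e1]
      have h4 : J ^ 2 ≤ (4 * L * D) ^ 2 := pow_le_pow_left₀ hJ.le hJ4 2
      have h5 : (4 * L * D) ^ 2 = 16 * L ^ 2 * D ^ 2 := by ring
      have h6 : 16 * L ^ 2 * D ^ 2 ≤ 16 * L ^ 2 * (64 * (n : ℝ) ^ 2 * L) :=
        mul_le_mul_of_nonneg_left hlt.le (by positivity)
      have h7 : 16 * L ^ 2 * (64 * (n : ℝ) ^ 2 * L) = (1024 * (n : ℝ) ^ 2) * L ^ 3 := by ring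
      have h8 : 1024 * (n : ℝ) ^ 2 ≤ (128 * (n : ℝ) ^ 2) ^ 2 := by nlinarith
      have h9 : (1024 * (n : ℝ) ^ 2) * L ^ 3 ≤ (128 * (n : ℝ) ^ 2) ^ 2 * L ^ 3 :=
        mul_le_mul_of_nonneg_right h8 (by positivity)
      linarith
    have h10 : J ≤ 128 * (n : ℝ) ^ 2 * L ^ ((3 : ℝ) / 2) :=
      le_of_sq_le_sq h3 (by positivity)
    exact h10.trans (mul_le_mul_of_nonneg_left hLp (by positivity))
  · have hH := H (by linarith) hge
    obtain ⟨a, ha⟩ : ∃ a : ℝ, a = 32 * (n : ℝ) ^ 2 := ⟨_, rfl⟩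
    have ha1 : 1 ≤ a := by rw [ha]; nlinarith
    have hna : (n : ℝ) ≤ a := by rw [ha]; nlinarith
    rw [← ha] at hH
    have e1 : (D ^ 2 / (a * L)) ^ k * D = D ^ (2 * k + 1) / (a ^ k * L ^ k) := by
      rw [div_pow, mul_pow, ← pow_mul, div_mul_eq_mul_div, ← pow_succ]
    rw [e1, div_le_iff₀ (by positivity)] at hH
    have hDp : D ^ (2 * k + 1) ≤ a ^ (2 * k + 1) * L ^ (k + 1) := by
      refine hH.trans ?_
      have e2 : (n : ℝ) * L * (a ^ k * L ^ k) = (n * a ^ k) * L ^ (k + 1) := by ring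
      rw [e2]
      apply mul_le_mul_of_nonneg_right _ (by positivity)
      calc (n : ℝ) * a ^ k ≤ a * a ^ k := mul_le_mul_of_nonneg_right hna (by positivity)
        _ = a ^ (k + 1) := by ring
        _ ≤ a ^ (2 * k + 1) := pow_le_pow_right₀ ha1 (by omega)
    have h3 : J ^ (2 * k + 1) ≤ (128 * (n : ℝ) ^ 2 * L ^ p) ^ (2 * k + 1) := by
      have e3 : (L ^ p) ^ (2 * k + 1) = L ^ (3 * k + 2) := by
        rw [← Real.rpow_natCast, ← Real.rpow_mul hL0.le, hpk, Real.rpow_natCast]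
      have e4 : 128 * (n : ℝ) ^ 2 = 4 * a := by rw [ha]; ring
      rw [mul_pow, e3, e4]
      calc J ^ (2 * k + 1) ≤ (4 * L * D) ^ (2 * k + 1) := pow_le_pow_left₀ hJ.le hJ4 _
        _ = (4 * L) ^ (2 * k + 1) * D ^ (2 * k + 1) := by rw [mul_pow]
        _ ≤ (4 * L) ^ (2 * k + 1) * (a ^ (2 * k + 1) * L ^ (k + 1)) :=
            mul_le_mul_of_nonneg_left hDp (by positivity)
        _ = (4 * a) ^ (2 * k + 1) * L ^ (3 * k + 2) := by
            rw [mul_pow, mul_pow]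
            have e5 : 3 * k + 2 = (2 * k + 1) + (k + 1) := by omega
            rw [e5, pow_add]
            ring
    exact le_of_pow_le_pow_left₀ (by omega) (by positivity) h3

variable {α : Type*}

open Classical in
/-- the upper bound for a configuration -/
theorem joints_bound {M : Matroid α} (hs : IsSimple M) {n : ℕ} (hn : 4 ≤ n) {S : Finset (Set α)}
    (hS : ∀ l ∈ S, IsLine M l) (X : Finset α)
    (hX : ∀ x ∈ X, IsJoint M n (S : Set (Set α)) x) :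
    (X.card : ℝ) ≤
      128 * (n : ℝ) ^ 2 * (S.card : ℝ) ^ ((3 : ℝ) / 2 + 1 / (2 ^ (n - 1) - 2)) := by
  rcases Nat.eq_zero_or_pos X.card with h0 | hX0
  · rw [h0]
    push_cast
    positivity
  have hX' : ∀ x ∈ X, ∃ l : Fin n → Set α, (∀ i, l i ∈ S) ∧ (∀ i, x ∈ l i) ∧
      ((n : ℕ∞) + 1 ≤ M.eRk (⋃ i, l i)) := by
    intro x hx
    obtain ⟨l, h1, h2, h3⟩ := hX x hx
    exact ⟨l, fun i => by simpa using h1 i, h2, h3⟩
  choose! l hl hxl hrl using hX'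
  obtain ⟨T, hT⟩ : ∃ T : α → Finset (Set α), ∀ x, T x = Finset.univ.image (l x) :=
    ⟨fun x => Finset.univ.image (l x), fun x => rfl⟩
  have hmemT : ∀ x v, v ∈ T x ↔ ∃ i, l x i = v := by
    intro x v
    rw [hT]
    simp
  have hL : 0 < S.card := by
    obtain ⟨x, hx⟩ := Finset.card_pos.1 hX0
    exact Finset.card_pos.2 ⟨_, hl x hx ⟨0, by omega⟩⟩
  have hsub : ∀ y ∈ X, T y ⊆ S := by
    intro y hy v hv
    obtain ⟨i, rfl⟩ := (hmemT y v).1 hv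
    exact hl y hy i
  obtain ⟨G, hGX, hGne, hdeg⟩ := prune X T S hsub hL hX0
  have hconf : Conf M n S G T ((X.card : ℝ) / (2 * S.card)) := by
    refine ⟨hs, hS, fun y hy => hsub y (hGX hy), ?_, ?_, ?_, hdeg⟩
    · intro y hy v hv
      obtain ⟨i, rfl⟩ := (hmemT y v).1 hv
      exact hxl y (hGX hy) i
    · intro y hy
      rw [hT]
      exact Finset.card_image_le.trans (by simp)
    · intro y hy F hF
      obtain ⟨j, hj⟩ := exists_not_sub (hrl y (hGX hy)) hF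
      exact ⟨l y j, (hmemT _ _).2 ⟨j, rfl⟩, hj⟩
  exact arith _ _ n hn (by exact_mod_cast hX0) (by exact_mod_cast hL)
    (fun h1 h2 => main_ineq hconf hGne hn h1 h2)

end Run7.h117.JM
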