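import Pool.Agent.Run7.h117.JM.Pairs
import Pool.Agent.N353.Joints.Def

/-!
# Joints in matroids, sharper upper bound: the geometric part
-/

set_option autoImplicit false

namespace Run7.h117.JM

open Pool.Agent.N353.Joints

variable {α : Type*}

open Classical in
/-- the points of `G` on the line `v` -/
noncomputable def on (G : Finset α) (T : α → Finset (Set α)) (v : Set α) : Finset α :=
  G.filter (fun x => v ∈ T x)

lemma mem_on {G : Finset α} {T : α → Finset (Set α)} {v : Set α} {x : α} :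
    x ∈ on G T v ↔ x ∈ G ∧ v ∈ T x := by
  unfold on; exact Finset.mem_filter

open Classical in
/-- the points of `G` on the line `v` outside `F` -/
noncomputable def off (G : Finset α) (T : α → Finset (Set α)) (F v : Set α) : Finset α :=
  (on G T v).filter (fun y => y ∉ F)

lemma mem_off {G : Finset α} {T : α → Finset (Set α)} {F v : Set α} {x : α} :
    x ∈ off G T F v ↔ x ∈ G ∧ v ∈ T x ∧ x ∉ F := by
  unfold off
  simp only [Finset.mem_filter, mem_on, and_assoc]

open Classical in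
/-- the lines of `V` that span `i` together with `F` -/
noncomputable def cls (M : Matroid α) (F : Set α) (V : Finset (Set α)) (i : Set α) :
    Finset (Set α) := V.filter (fun w => M.closure (F ∪ w) = i)

lemma mem_cls {M : Matroid α} {F : Set α} {V : Finset (Set α)} {i w : Set α} :
    w ∈ cls M F V i ↔ w ∈ V ∧ M.closure (F ∪ w) = i := by
  unfold cls; exact Finset.mem_filter

/-- a configuration all of whose lines carry many joints -/
structure Conf (M : Matroid α) (n : ℕ) (S : Finset (Set α)) (G : Finset α)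
    (T : α → Finset (Set α)) (d : ℝ) : Prop where
  simple : IsSimple M
  lines : ∀ l ∈ S, IsLine M l
  sub : ∀ y ∈ G, T y ⊆ S
  mem : ∀ y ∈ G, ∀ v ∈ T y, y ∈ v
  card : ∀ y ∈ G, (T y).card ≤ n
  out : ∀ y ∈ G, ∀ F : Set α, M.eRk F ≤ n → ∃ v ∈ T y, ¬ v ⊆ F
  deg : ∀ y ∈ G, ∀ v ∈ T y, d ≤ ((on G T v).card : ℝ)

/-- the state of the iteration -/
structure St (M : Matroid α) (S : Finset (Set α)) (G : Finset α) (T : α → Finset (Set α))
    (F : Set α) (V : Finset (Set α)) (c : ℝ) (r : ℕ) : Prop where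
  flat : M.IsFlat F
  rk : M.eRk F ≤ r
  VS : V ⊆ S
  nsub : ∀ v ∈ V, ¬ v ⊆ F
  wit : ∀ v ∈ V, ∃ x ∈ G, x ∈ F ∧ v ∈ T x
  fib : ∀ v ∈ V, c ≤ ((cls M F V (M.closure (F ∪ v))).card : ℝ)
  ne : V.Nonempty

/-- the line `z` meets the class flat `i` in a joint outside `F` -/
def Rel (M : Matroid α) (G : Finset α) (T : α → Finset (Set α)) (F : Set α)
    (V : Finset (Set α)) (i z : Set α) : Prop :=
  ¬ z ⊆ i ∧ ∃ y ∈ G, y ∉ F ∧ ∃ v ∈ V, M.closure (F ∪ v) = i ∧ v ∈ T y ∧ z ∈ T y

lemma K_rk {M : Matroid α} (hs : IsSimple M) {F v : Set α} {x : α} {r : ℕ} (hF : M.IsFlat F)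
    (hr : M.eRk F ≤ r) (hv : IsLine M v) (hxv : x ∈ v) (hxF : x ∈ F) :
    M.eRk (M.closure (F ∪ v)) ≤ ((r + 1 : ℕ) : ℕ∞) := by
  obtain ⟨F', hF', hr', hFF', hvF'⟩ := rank_add_line hs hv hxv hxF hF.subset_ground
  have h1 : F ∪ v ⊆ F' := Set.union_subset hFF' hvF'
  rw [M.eRk_closure_eq]
  calc M.eRk (F ∪ v) ≤ M.eRk F' := M.eRk_mono h1
    _ ≤ M.eRk F + 1 := hr'
    _ ≤ r + 1 := by gcongr
    _ = _ := by push_cast; rfl

lemma sub_K {M : Matroid α} {F v : Set α} (hF : M.IsFlat F) (hv : IsLine M v) :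
    F ∪ v ⊆ M.closure (F ∪ v) :=
  M.subset_closure _ (Set.union_subset hF.subset_ground hv.1.subset_ground)

lemma K_eq {M : Matroid α} (hs : IsSimple M) {F v : Set α} {x y : α} (hF : M.IsFlat F)
    (hv : IsLine M v) (hxv : x ∈ v) (hxF : x ∈ F) (hvF : ¬ v ⊆ F) (hy : y ∈ M.closure (F ∪ v))
    (hyF : y ∉ F) : M.closure (F ∪ v) = M.closure (insert y F) := by
  obtain ⟨q, hq, hqF⟩ := Set.not_subset.1 hvF
  have hqx : x ≠ q := by rintro rfl; exact hqF hxF
  have hqE : q ∈ M.E := hv.1.subset_ground hq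
  have hFE := hF.subset_ground
  have hsub : insert q F ⊆ M.E := Set.insert_subset hqE hFE
  have h1 : insert q F ⊆ M.closure (insert q F) := M.subset_closure _ hsub
  have h2 : v ⊆ M.closure (insert q F) := line_sub hs hv (M.isFlat_closure _) hxv hq hqx
    (h1 (Set.mem_insert_of_mem q hxF)) (h1 (Set.mem_insert q F))
  have h3 : M.closure (F ∪ v) = M.closure (insert q F) := by
    apply Set.Subset.antisymm
    · apply M.closure_subset_closure_of_subset_closure
      exact Set.union_subset ((Set.subset_insert q F).trans h1) h2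
    · apply M.closure_subset_closure
      exact Set.insert_subset (Set.mem_union_right _ hq) Set.subset_union_left
  rw [h3] at hy ⊢
  exact (M.closure_insert_congr ⟨hy, by rwa [hF.closure]⟩).symm

section

variable {M : Matroid α} {n : ℕ} {S : Finset (Set α)} {G : Finset α} {T : α → Finset (Set α)}
  {d : ℝ} {F : Set α} {V : Finset (Set α)} {c : ℝ} {r : ℕ}

open Classical in
lemma card_off (h : Conf M n S G T d) {v : Set α} (hF : M.IsFlat F) (hv : ¬ v ⊆ F) {x : α}
    (hx : x ∈ G) (hxF : x ∈ F) (hxv : v ∈ T x) : d - 1 ≤ ((off G T F v).card : ℝ) := by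
  have h1 := h.deg x hx v hxv
  have h2 : on G T v ⊆ insert x (off G T F v) := by
    intro y hy
    obtain ⟨hyG, hyv⟩ := mem_on.1 hy
    by_cases hyx : y = x
    · exact hyx ▸ Finset.mem_insert_self _ _
    · refine Finset.mem_insert_of_mem (mem_off.2 ⟨hyG, hyv, fun hyF => hv ?_⟩)
      exact line_sub h.simple (h.lines v (h.sub x hx hxv)) hF (h.mem x hx v hxv) (h.mem y hyG v hyv)
        (Ne.symm hyx) hxF hyF
  have h5 : (on G T v).card ≤ (off G T F v).card + 1 :=
    (Finset.card_le_card h2).trans (Finset.card_insert_le x (off G T F v))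
  have h6 : ((on G T v).card : ℝ) ≤ (off G T F v).card + 1 := by exact_mod_cast h5
  linarith

/-- the rank of a class flat -/
lemma class_rk (h : Conf M n S G T d) (hst : St M S G T F V c r) (hrn : r + 1 ≤ n) {v : Set α}
    (hv : v ∈ V) : M.eRk (M.closure (F ∪ v)) ≤ n := by
  obtain ⟨x, hx, hxF, hxv⟩ := hst.wit v hv
  refine (K_rk h.simple hst.flat hst.rk (h.lines v (hst.VS hv)) (h.mem x hx v hxv) hxF).trans ?_
  exact_mod_cast hrn

/-- a class flat is spanned by `F` and each of its points outside `F` -/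
lemma class_eq (h : Conf M n S G T d) (hst : St M S G T F V c r) {v : Set α}
    (hv : v ∈ V) {y : α} (hy : y ∈ M.closure (F ∪ v)) (hyF : y ∉ F) :
    M.closure (F ∪ v) = M.closure (insert y F) := by
  obtain ⟨x, hx, hxF, hxv⟩ := hst.wit v hv
  exact K_eq h.simple hst.flat (h.lines v (hst.VS hv)) (h.mem x hx v hxv) hxF (hst.nsub v hv) hy hyF

open Classical in
/-- a class with many lines has many neighbours -/
lemma class_edges (h : Conf M n S G T d) (hst : St M S G T F V c r) (hrn : r + 1 ≤ n)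
    {v0 : Set α} (hv0 : v0 ∈ V) :
    ((cls M F V (M.closure (F ∪ v0))).card : ℝ) * (d - 1) ≤
      n * ((S.filter (Rel M G T F V (M.closure (F ∪ v0)))).card : ℝ) := by
  obtain ⟨i, hi⟩ : ∃ i, i = M.closure (F ∪ v0) := ⟨_, rfl⟩
  have hri : M.eRk i ≤ n := hi ▸ class_rk h hst hrn hv0
  have hif : M.IsFlat i := hi ▸ M.isFlat_closure _
  rw [← hi]
  have hz : ∀ y ∈ G, ∃ z ∈ T y, ¬ z ⊆ i := fun y hy => h.out y hy i hri
  choose! z hzT hzi using hz
  have hin : ∀ v ∈ cls M F V i, ∀ y ∈ G, v ∈ T y → y ∈ i := by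
    intro v hv y hy hvy
    obtain ⟨hvV, hvi⟩ := mem_cls.1 hv
    rw [← hvi]
    exact sub_K hst.flat (h.lines v (hst.VS hvV)) (Set.mem_union_right _ (h.mem y hy v hvy))
  obtain ⟨P, hP⟩ : ∃ P : Finset ((_ : Set α) × α), P = (cls M F V i).sigma (fun v => off G T F v) :=
    ⟨_, rfl⟩
  have hmemP : ∀ p ∈ P, p.1 ∈ cls M F V i ∧ p.2 ∈ G ∧ p.1 ∈ T p.2 ∧ p.2 ∉ F := by
    intro p hp
    rw [hP, Finset.mem_sigma] at hp
    obtain ⟨h1, h2⟩ := hp
    obtain ⟨h3, h4, h5⟩ := mem_off.1 h2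
    exact ⟨h1, h3, h4, h5⟩
  have hPc : ((cls M F V i).card : ℝ) * (d - 1) ≤ (P.card : ℝ) := by
    rw [hP, Finset.card_sigma]
    push_cast
    rw [← nsmul_eq_mul, ← Finset.sum_const]
    refine Finset.sum_le_sum fun v hv => ?_
    obtain ⟨hvV, _⟩ := mem_cls.1 hv
    obtain ⟨x, hx, hxF, hxv⟩ := hst.wit v hvV
    exact card_off h hst.flat (hst.nsub v hvV) hx hxF hxv
  have hmap : ∀ p ∈ P, z p.2 ∈ S.filter (Rel M G T F V i) := by
    intro p hp
    obtain ⟨h1, h2, h3, h4⟩ := hmemP p hp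
    obtain ⟨h5, h6⟩ := mem_cls.1 h1
    exact Finset.mem_filter.2 ⟨h.sub _ h2 (hzT _ h2), hzi _ h2, p.2, h2, h4, p.1, h5, h6, h3,
      hzT _ h2⟩
  have hfib : ∀ w ∈ S.filter (Rel M G T F V i), (P.filter (fun p => z p.2 = w)).card ≤ n := by
    intro w hw
    rcases (P.filter (fun p => z p.2 = w)).eq_empty_or_nonempty with he | ⟨p0, hp0⟩
    · rw [he]; simp
    · obtain ⟨hp0P, hp0w⟩ := Finset.mem_filter.1 hp0
      obtain ⟨h1, h2, h3, h4⟩ := hmemP p0 hp0P
      have hsame : ∀ p ∈ P.filter (fun p => z p.2 = w), p.2 = p0.2 := by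
        intro p hp
        obtain ⟨hpP, hpw⟩ := Finset.mem_filter.1 hp
        obtain ⟨g1, g2, g3, g4⟩ := hmemP p hpP
        by_contra hne
        apply hzi _ h2
        have hz0 : z p0.2 = z p.2 := hp0w.trans hpw.symm
        exact line_sub h.simple (h.lines _ (h.sub _ h2 (hzT _ h2))) hif
          (hz0 ▸ h.mem _ g2 _ (hzT _ g2)) (h.mem _ h2 _ (hzT _ h2)) hne
          (hin _ g1 _ g2 g3) (hin _ h1 _ h2 h3)
      refine le_trans ?_ (h.card _ h2)
      apply Finset.card_le_card_of_injOn (fun p => p.1)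
      · intro p hp
        have hp' := Finset.mem_coe.1 hp
        obtain ⟨hpP, hpw⟩ := Finset.mem_filter.1 hp'
        have := (hmemP p hpP).2.2.1
        rw [hsame p hp'] at this
        exact Finset.mem_coe.2 this
      · intro p hp q hq hpq
        have e1 := hsame p (Finset.mem_coe.1 hp)
        have e2 := hsame q (Finset.mem_coe.1 hq)
        exact Sigma.ext hpq (heq_of_eq (e1.trans e2.symm))
  have hle := Finset.card_le_mul_card_image_of_maps_to hmap n hfib
  refine hPc.trans ?_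
  exact_mod_cast hle

end

end Run7.h117.JM
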