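import Mathlib

/-!
# Joints in matroids, sharper upper bound: a lemma on pairs in bipartite graphs
-/

set_option autoImplicit false

namespace Run7.h117.JM

open Finset

open Classical in
theorem pt {ι ζ : Type*} (I : Finset ι) (R : ι → ζ → Prop) (s : ζ → ℝ) (ρ τ : ℝ) (T : ι → ι → ℝ)
    (P : ι → ζ → Prop) (Q : ι → ζ → Prop) (B : ι → ι → ζ → Prop)
    (hs : ∀ z, s z = ∑ i ∈ I, if R i z then (1 : ℝ) else 0) (hρ : 0 < ρ)
    (hP : ∀ i z, P i z ↔ (R i z ∧ ρ ≤ s z ∧ ∃ j ∈ I, j ≠ i ∧ R j z ∧ τ ≤ T i j))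
    (hQ : ∀ i z, Q i z ↔ (R i z ∧ s z < ρ))
    (hB : ∀ i j z, B i j z ↔ (R i z ∧ ρ ≤ s z ∧ R j z ∧ (j = i ∨ T i j < τ)))
    (i : ι) (z : ζ) :
    (if R i z then (1 : ℝ) else 0) ≤ (if P i z then (1 : ℝ) else 0) + (if Q i z then (1 : ℝ) else 0) +
      (1 / ρ) * ∑ j ∈ I, (if B i j z then (1 : ℝ) else 0) := by
  have hite : ∀ p : Prop, (0 : ℝ) ≤ (if p then (1 : ℝ) else 0) := by
    intro p; split_ifs <;> norm_num
  have hnn : 0 ≤ (1 / ρ) * ∑ j ∈ I, (if B i j z then (1 : ℝ) else 0) := by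
    apply mul_nonneg (by positivity)
    exact Finset.sum_nonneg fun j _ => hite _
  have h6 := hite (P i z)
  have h7 := hite (Q i z)
  by_cases h1 : R i z
  · rw [if_pos h1]
    by_cases h2 : s z < ρ
    · rw [if_pos ((hQ i z).2 ⟨h1, h2⟩)]
      linarith
    · push Not at h2
      by_cases h3 : ∃ j ∈ I, j ≠ i ∧ R j z ∧ τ ≤ T i j
      · rw [if_pos ((hP i z).2 ⟨h1, h2, h3⟩)]
        linarith
      · push Not at h3
        have h4 : s z ≤ ∑ j ∈ I, (if B i j z then (1 : ℝ) else 0) := by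
          rw [hs z]
          refine Finset.sum_le_sum fun j hj => ?_
          by_cases h5 : R j z
          · rw [if_pos h5, if_pos]
            refine (hB i j z).2 ⟨h1, h2, h5, ?_⟩
            by_cases h6 : j = i
            · exact Or.inl h6
            · exact Or.inr (h3 j hj h6 h5)
          · rw [if_neg h5]
            exact hite _
        have h5 : 1 ≤ (1 / ρ) * ∑ j ∈ I, (if B i j z then (1 : ℝ) else 0) := by
          rw [one_div, ← div_eq_inv_mul, le_div_iff₀ hρ, one_mul]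
          exact h2.trans h4
        linarith
  · rw [if_neg h1]
    linarith

open Classical in
/-- Let every `i ∈ I` have at least `e0` neighbours in `Z`, `|Z| ≤ L`, and at least `32 L` edges in all. Then
there are `i` and a set `W` of at least half of its neighbours such that every `z ∈ W` has a neighbour
`j ≠ i` with at least `e0² / (32 L)` neighbours in `W`. -/
theorem pairs {ι ζ : Type*} (I : Finset ι) (Z : Finset ζ)
    (R : ι → ζ → Prop) (L e0 : ℝ) (hL : 0 < L) (hZ : (Z.card : ℝ) ≤ L)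
    (he0 : 0 < e0) (hI : I.Nonempty)
    (he : ∀ i ∈ I, e0 ≤ ((Z.filter (R i)).card : ℝ))
    (hS0 : 32 * L ≤ ∑ i ∈ I, ((Z.filter (R i)).card : ℝ)) :
    ∃ i ∈ I, ∃ W ⊆ Z.filter (R i), e0 / 2 ≤ (W.card : ℝ) ∧ ∀ z ∈ W, ∃ j ∈ I, j ≠ i ∧ R j z ∧
      e0 ^ 2 / (32 * L) ≤ ((W.filter (R j)).card : ℝ) := by
  obtain ⟨S, hSdef⟩ : ∃ S : ℝ, S = ∑ i ∈ I, ((Z.filter (R i)).card : ℝ) := ⟨_, rfl⟩
  have hS : 32 * L ≤ S := hSdef ▸ hS0
  clear hS0
  have hSpos : 0 < S := by linarith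
  obtain ⟨s, hs⟩ : ∃ s : ζ → ℝ, ∀ z, s z = ∑ i ∈ I, if R i z then (1 : ℝ) else 0 :=
    ⟨fun z => ∑ i ∈ I, if R i z then (1 : ℝ) else 0, fun z => rfl⟩
  obtain ⟨ρ, hρ⟩ : ∃ ρ : ℝ, ρ = S / (4 * L) := ⟨_, rfl⟩
  have hρ8 : 8 ≤ ρ := by
    rw [hρ, le_div_iff₀ (by positivity)]
    linarith
  have hρpos : 0 < ρ := by linarith
  obtain ⟨k, hk⟩ : ∃ k : ℝ, k = (I.card : ℝ) := ⟨_, rfl⟩
  have hkpos : 0 < k := by rw [hk]; exact_mod_cast hI.card_pos
  obtain ⟨τ, hτ⟩ : ∃ τ : ℝ, τ = ρ * S / (8 * k ^ 2) := ⟨_, rfl⟩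
  have hτpos : 0 < τ := by rw [hτ]; positivity
  obtain ⟨U, hU⟩ : ∃ U : ι → ι → ζ → Prop, ∀ i j z, U i j z ↔ (ρ ≤ s z ∧ R i z ∧ R j z) :=
    ⟨fun i j z => _, fun i j z => Iff.rfl⟩
  obtain ⟨T, hT⟩ : ∃ T : ι → ι → ℝ, ∀ i j, T i j = ((Z.filter (U i j)).card : ℝ) :=
    ⟨fun i j => _, fun i j => rfl⟩
  obtain ⟨P, hP⟩ : ∃ P : ι → ζ → Prop, ∀ i z, P i z ↔
      (R i z ∧ ρ ≤ s z ∧ ∃ j ∈ I, j ≠ i ∧ R j z ∧ τ ≤ T i j) := ⟨fun i z => _, fun i z => Iff.rfl⟩
  obtain ⟨Q, hQ⟩ : ∃ Q : ι → ζ → Prop, ∀ i z, Q i z ↔ (R i z ∧ s z < ρ) :=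
    ⟨fun i z => _, fun i z => Iff.rfl⟩
  obtain ⟨B, hB⟩ : ∃ B : ι → ι → ζ → Prop, ∀ i j z, B i j z ↔
      (R i z ∧ ρ ≤ s z ∧ R j z ∧ (j = i ∨ T i j < τ)) := ⟨fun i j z => _, fun i j z => Iff.rfl⟩
  have hite : ∀ p : Prop, (0 : ℝ) ≤ (if p then (1 : ℝ) else 0) := by
    intro p; split_ifs <;> norm_num
  have hite1 : ∀ p : Prop, (if p then (1 : ℝ) else 0) ≤ 1 := by
    intro p; split_ifs <;> norm_num
  have hcard : ∀ (p : ζ → Prop), ((Z.filter p).card : ℝ) = ∑ z ∈ Z, if p z then (1 : ℝ) else 0 := by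
    intro p
    rw [Finset.card_filter]
    push_cast
    rfl
  -- sum over all pairs
  have hsum : S ≤ (∑ i ∈ I, ∑ z ∈ Z, if P i z then (1 : ℝ) else 0) +
      (∑ i ∈ I, ∑ z ∈ Z, if Q i z then (1 : ℝ) else 0) +
      (1 / ρ) * ∑ i ∈ I, ∑ j ∈ I, ∑ z ∈ Z, (if B i j z then (1 : ℝ) else 0) := by
    have e1 : S = ∑ i ∈ I, ∑ z ∈ Z, if R i z then (1 : ℝ) else 0 := by
      rw [hSdef]
      exact Finset.sum_congr rfl fun i _ => hcard _
    rw [e1, Finset.mul_sum, ← Finset.sum_add_distrib, ← Finset.sum_add_distrib]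
    refine Finset.sum_le_sum fun i hi => ?_
    rw [Finset.sum_comm (s := I) (t := Z), Finset.mul_sum, ← Finset.sum_add_distrib,
      ← Finset.sum_add_distrib]
    exact Finset.sum_le_sum fun z hz => pt I R s ρ τ T P Q B hs hρpos hP hQ hB i z
  have hB1 : (∑ i ∈ I, ∑ z ∈ Z, if Q i z then (1 : ℝ) else 0) ≤ S / 4 := by
    rw [Finset.sum_comm]
    have e1 : ∀ z ∈ Z, (∑ i ∈ I, if Q i z then (1 : ℝ) else 0) ≤ ρ := by
      intro z _
      by_cases h : s z < ρ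
      · refine le_trans ?_ h.le
        rw [hs z]
        refine Finset.sum_le_sum fun i _ => ?_
        by_cases h1 : R i z
        · rw [if_pos h1]; exact hite1 _
        · rw [if_neg h1, if_neg (fun h2 => h1 ((hQ i z).1 h2).1)]
      · have e2 : (∑ i ∈ I, if Q i z then (1 : ℝ) else 0) = 0 :=
          Finset.sum_eq_zero fun i _ => if_neg fun h2 => h ((hQ i z).1 h2).2
        rw [e2]; exact hρpos.le
    have e3 : L * ρ = S / 4 := by rw [hρ]; field_simp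
    have e4 : (Z.card : ℝ) * ρ ≤ L * ρ := mul_le_mul_of_nonneg_right hZ hρpos.le
    have e5 : (∑ z ∈ Z, ∑ i ∈ I, if Q i z then (1 : ℝ) else 0) ≤ ∑ z ∈ Z, ρ := Finset.sum_le_sum e1
    rw [Finset.sum_const, nsmul_eq_mul] at e5
    linarith
  have hB2 : (∑ i ∈ I, ∑ j ∈ I, ∑ z ∈ Z, (if B i j z then (1 : ℝ) else 0)) ≤ S + k ^ 2 * τ := by
    have e1 : ∀ i ∈ I, ∀ j ∈ I, (∑ z ∈ Z, (if B i j z then (1 : ℝ) else 0)) ≤
        (if j = i then ((Z.filter (R i)).card : ℝ) else 0) + τ := by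
      intro i _ j _
      by_cases h : j = i
      · rw [if_pos h, hcard]
        have : (∑ z ∈ Z, (if B i j z then (1 : ℝ) else 0)) ≤ ∑ z ∈ Z, if R i z then (1 : ℝ) else 0 := by
          refine Finset.sum_le_sum fun z _ => ?_
          by_cases h1 : R i z
          · rw [if_pos h1]; exact hite1 _
          · rw [if_neg h1, if_neg (fun h2 => h1 ((hB i j z).1 h2).1)]
        linarith
      · rw [if_neg h, zero_add]
        by_cases h2 : T i j < τ
        · refine le_trans ?_ h2.le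
          rw [hT i j, hcard]
          refine Finset.sum_le_sum fun z _ => ?_
          by_cases h1 : U i j z
          · rw [if_pos h1]; exact hite1 _
          · have h5 : ¬ B i j z := by
              intro h3
              have h4 := (hB i j z).1 h3
              exact h1 ((hU i j z).2 ⟨h4.2.1, h4.1, h4.2.2.1⟩)
            rw [if_neg h1, if_neg h5]
        · have : (∑ z ∈ Z, (if B i j z then (1 : ℝ) else 0)) = 0 := by
            refine Finset.sum_eq_zero fun z _ => if_neg ?_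
            intro h3
            rcases ((hB i j z).1 h3).2.2.2 with h4 | h4
            · exact h h4
            · exact h2 h4
          rw [this]; exact hτpos.le
    have e2 : (∑ i ∈ I, ∑ j ∈ I, ∑ z ∈ Z, (if B i j z then (1 : ℝ) else 0)) ≤
        ∑ i ∈ I, ∑ j ∈ I, ((if j = i then ((Z.filter (R i)).card : ℝ) else 0) + τ) :=
      Finset.sum_le_sum fun i hi => Finset.sum_le_sum fun j hj => e1 i hi j hj
    have e3 : ∀ i ∈ I, (∑ j ∈ I, ((if j = i then ((Z.filter (R i)).card : ℝ) else 0) + τ)) =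
        ((Z.filter (R i)).card : ℝ) + k * τ := by
      intro i hi
      rw [Finset.sum_add_distrib, Finset.sum_ite_eq' I i, if_pos hi, Finset.sum_const,
        nsmul_eq_mul, hk]
    rw [Finset.sum_congr rfl e3, Finset.sum_add_distrib, Finset.sum_const, nsmul_eq_mul, ← hSdef,
      ← hk] at e2
    linarith [e2, show k * (k * τ) = k ^ 2 * τ by ring]
  have hgood : S / 2 ≤ ∑ i ∈ I, ∑ z ∈ Z, if P i z then (1 : ℝ) else 0 := by
    have e1 : (1 / ρ) * (S + k ^ 2 * τ) ≤ S / 4 := by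
      have e2 : (1 / ρ) * (S + k ^ 2 * τ) = S / ρ + S / 8 := by
        rw [hτ]; field_simp
      have e3 : S / ρ ≤ S / 8 := div_le_div_of_nonneg_left hSpos.le (by norm_num) hρ8
      rw [e2]; linarith
    have e4 : (1 / ρ) * ∑ i ∈ I, ∑ j ∈ I, ∑ z ∈ Z, (if B i j z then (1 : ℝ) else 0) ≤
        (1 / ρ) * (S + k ^ 2 * τ) := mul_le_mul_of_nonneg_left hB2 (by positivity)
    linarith
  obtain ⟨i, hi, hile⟩ : ∃ i ∈ I, ((Z.filter (R i)).card : ℝ) / 2 ≤
      ∑ z ∈ Z, if P i z then (1 : ℝ) else 0 := by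
    apply Finset.exists_le_of_sum_le hI
    rw [← Finset.sum_div, ← hSdef]
    exact hgood
  rw [← hcard] at hile
  refine ⟨i, hi, Z.filter (P i), ?_, ?_, ?_⟩
  · intro z hz
    obtain ⟨h1, h2⟩ := Finset.mem_filter.1 hz
    exact Finset.mem_filter.2 ⟨h1, ((hP i z).1 h2).1⟩
  · have := he i hi
    linarith
  · intro z hz
    obtain ⟨hzZ, hz2⟩ := Finset.mem_filter.1 hz
    obtain ⟨h1, h2, j, hj, hji, hRj, hTij⟩ := (hP i z).1 hz2
    refine ⟨j, hj, hji, hRj, ?_⟩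
    have e1 : T i j ≤ (((Z.filter (P i)).filter (R j)).card : ℝ) := by
      have : (Z.filter (U i j)) ⊆ (Z.filter (P i)).filter (R j) := by
        intro z' hz'
        obtain ⟨h3, h30⟩ := Finset.mem_filter.1 hz'
        obtain ⟨h4, h5, h6⟩ := (hU i j z').1 h30
        exact Finset.mem_filter.2 ⟨Finset.mem_filter.2 ⟨h3, (hP i z').2 ⟨h5, h4, j, hj, hji, h6, hTij⟩⟩, h6⟩
      rw [hT i j]
      exact_mod_cast Finset.card_le_card this
    refine le_trans ?_ (hTij.trans e1)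
    -- e0² / (32 L) ≤ τ
    have e2 : k * e0 ≤ S := by
      have := Finset.sum_le_sum he
      rw [Finset.sum_const, nsmul_eq_mul, ← hSdef, ← hk] at this
      exact this
    have e3 : (k * e0) ^ 2 ≤ S ^ 2 := pow_le_pow_left₀ (by positivity) e2 2
    rw [hτ, hρ, div_le_div_iff₀ (by positivity) (by positivity)]
    have e4 : S / (4 * L) * S * (32 * L) = 8 * S ^ 2 := by field_simp; ring
    rw [e4]
    nlinarith [e3]

end Run7.h117.JM
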