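import Pool.Agent.Run7.h117.JM.Geo

/-!
# Joints in matroids, sharper upper bound: the iteration
-/

set_option autoImplicit false

namespace Run7.h117.JM

open Pool.Agent.N353.Joints

variable {α : Type*} {M : Matroid α} {n : ℕ} {S : Finset (Set α)} {G : Finset α}
  {T : α → Finset (Set α)} {d : ℝ} {F : Set α} {V : Finset (Set α)} {c : ℝ} {r : ℕ}

open Classical in
lemma step (h : Conf M n S G T d) (hst : St M S G T F V c r) (hrn : r + 1 ≤ n) (hc : 0 < c)
    (hd : 1 < d) (hbig : 32 * (S.card : ℝ) * n ≤ (V.card : ℝ) * (d - 1)) :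
    ∃ F' V', St M S G T F' V' ((c * (d - 1) / n) ^ 2 / (32 * S.card)) (r + 1) ∧
      c * (d - 1) / n / 2 ≤ (V'.card : ℝ) := by
  have hn : (0 : ℝ) < n := by exact_mod_cast (by omega : 0 < n)
  have hd' : 0 < d - 1 := by linarith
  obtain ⟨v00, hv00⟩ := hst.ne
  have hL : (0 : ℝ) < S.card := by exact_mod_cast Finset.card_pos.2 ⟨v00, hst.VS hv00⟩
  obtain ⟨K, hK⟩ : ∃ K : Set α → Set α, ∀ v, K v = M.closure (F ∪ v) :=
    ⟨fun v => M.closure (F ∪ v), fun v => rfl⟩
  obtain ⟨e0, he0⟩ : ∃ e0 : ℝ, e0 = c * (d - 1) / n := ⟨_, rfl⟩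
  have he0pos : 0 < e0 := by rw [he0]; exact div_pos (mul_pos hc hd') hn
  have hI : (V.image K).Nonempty := ⟨_, Finset.mem_image_of_mem K hv00⟩
  have hedge : ∀ i ∈ V.image K, ((cls M F V i).card : ℝ) * (d - 1) / n ≤
      ((S.filter (Rel M G T F V i)).card : ℝ) := by
    intro i hi
    obtain ⟨v, hv, rfl⟩ := Finset.mem_image.1 hi
    rw [hK, div_le_iff₀ hn]
    have := class_edges h hst hrn hv
    linarith
  have hei : ∀ i ∈ V.image K, e0 ≤ ((S.filter (Rel M G T F V i)).card : ℝ) := by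
    intro i hi
    refine le_trans ?_ (hedge i hi)
    obtain ⟨v, hv, rfl⟩ := Finset.mem_image.1 hi
    have h1 := hst.fib v hv
    rw [← hK] at h1
    rw [he0]
    exact div_le_div_of_nonneg_right (mul_le_mul_of_nonneg_right h1 hd'.le) hn.le
  have hsum : 32 * (S.card : ℝ) ≤ ∑ i ∈ V.image K, ((S.filter (Rel M G T F V i)).card : ℝ) := by
    have h1 : (V.card : ℝ) = ∑ i ∈ V.image K, ((cls M F V i).card : ℝ) := by
      have h2 : V.card = ∑ i ∈ V.image K, (V.filter (fun a => K a = i)).card :=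
        Finset.card_eq_sum_card_fiberwise (fun a ha => Finset.mem_image_of_mem K ha)
      rw [h2]
      push_cast
      refine Finset.sum_congr rfl fun i _ => ?_
      have h3 : cls M F V i = V.filter (fun a => K a = i) := by
        ext w
        rw [mem_cls, Finset.mem_filter, hK]
      rw [h3]
    have h3 : (V.card : ℝ) * (d - 1) / n ≤
        ∑ i ∈ V.image K, ((S.filter (Rel M G T F V i)).card : ℝ) := by
      rw [h1, Finset.sum_mul, Finset.sum_div]
      exact Finset.sum_le_sum hedge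
    refine le_trans ?_ h3
    rw [le_div_iff₀ hn]
    exact hbig
  obtain ⟨i, hi, W, hWsub, hWc, hW⟩ :=
    pairs (V.image K) S (Rel M G T F V) (S.card) e0 hL le_rfl he0pos hI hei hsum
  obtain ⟨v, hv, hvi⟩ := Finset.mem_image.1 hi
  have hi' : i = M.closure (F ∪ v) := by rw [← hvi, hK]
  refine ⟨i, W, ⟨?_, ?_, ?_, ?_, ?_, ?_, ?_⟩, ?_⟩
  · rw [hi']; exact M.isFlat_closure _
  · rw [hi']
    obtain ⟨x, hx, hxF, hxv⟩ := hst.wit v hv
    exact K_rk h.simple hst.flat hst.rk (h.lines v (hst.VS hv)) (h.mem x hx v hxv) hxF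
  · intro z hz
    exact (Finset.mem_filter.1 (hWsub hz)).1
  · intro z hz
    exact (Finset.mem_filter.1 (hWsub hz)).2.1
  · intro z hz
    obtain ⟨_, _, y, hy, hyF, w, hw, hwi, hwy, hzy⟩ := Finset.mem_filter.1 (hWsub hz)
    refine ⟨y, hy, ?_, hzy⟩
    rw [← hwi]
    exact sub_K hst.flat (h.lines w (hst.VS hw)) (Set.mem_union_right _ (h.mem y hy w hwy))
  · intro z hz
    obtain ⟨j, hj, hji, hRjz, hcard⟩ := hW z hz
    rw [he0] at hcard
    refine hcard.trans ?_
    obtain ⟨v', hv', hvj⟩ := Finset.mem_image.1 hj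
    have hj' : j = M.closure (F ∪ v') := by rw [← hvj, hK]
    have hiE : i ⊆ M.E := by rw [hi']; exact M.closure_subset_ground _
    have hjE : j ⊆ M.E := by rw [hj']; exact M.closure_subset_ground _
    have key : ∀ w ∈ W, Rel M G T F V j w → M.closure (i ∪ w) = M.closure (i ∪ j) := by
      intro w hwW hwj
      obtain ⟨hwS, hwi⟩ := Finset.mem_filter.1 (hWsub hwW)
      obtain ⟨_, y1, hy1, hy1F, w1, hw1, hw1i, hw1y, hwy1⟩ := hwi
      obtain ⟨_, y2, hy2, hy2F, w2, hw2, hw2j, hw2y, hwy2⟩ := hwj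
      have hy1i : y1 ∈ M.closure (F ∪ w1) :=
        sub_K hst.flat (h.lines w1 (hst.VS hw1)) (Set.mem_union_right _ (h.mem y1 hy1 w1 hw1y))
      have hy2j : y2 ∈ M.closure (F ∪ w2) :=
        sub_K hst.flat (h.lines w2 (hst.VS hw2)) (Set.mem_union_right _ (h.mem y2 hy2 w2 hw2y))
      have ei := class_eq h hst hw1 hy1i hy1F
      have ej := class_eq h hst hw2 hy2j hy2F
      rw [hw1i] at hy1i ei
      rw [hw2j] at hy2j ej
      have hne : y1 ≠ y2 := by
        rintro rfl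
        exact hji (ej.trans ei.symm)
      have hwl := h.lines w hwS
      have hFi : F ⊆ i := by
        rw [ei]
        exact (Set.subset_insert _ _).trans
          (M.subset_closure _ (Set.insert_subset (hiE hy1i) hst.flat.subset_ground))
      apply Set.Subset.antisymm
      · apply M.closure_subset_closure_of_subset_closure
        have hs1 : i ∪ j ⊆ M.closure (i ∪ j) := M.subset_closure _ (Set.union_subset hiE hjE)
        refine Set.union_subset (Set.subset_union_left.trans hs1) ?_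
        exact line_sub h.simple hwl (M.isFlat_closure _) (h.mem y1 hy1 w hwy1)
          (h.mem y2 hy2 w hwy2) hne (hs1 (Or.inl hy1i)) (hs1 (Or.inr hy2j))
      · apply M.closure_subset_closure_of_subset_closure
        have hs2 : i ∪ w ⊆ M.closure (i ∪ w) :=
          M.subset_closure _ (Set.union_subset hiE hwl.1.subset_ground)
        refine Set.union_subset (Set.subset_union_left.trans hs2) ?_
        rw [ej]
        apply M.closure_subset_closure_of_subset_closure
        exact Set.insert_subset (hs2 (Or.inr (h.mem y2 hy2 w hwy2)))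
          ((hFi.trans Set.subset_union_left).trans hs2)
    have hsub : W.filter (Rel M G T F V j) ⊆ cls M i W (M.closure (i ∪ z)) := by
      intro w hw
      obtain ⟨hwW, hwj⟩ := Finset.mem_filter.1 hw
      exact mem_cls.2 ⟨hwW, (key w hwW hwj).trans (key z hz hRjz).symm⟩
    exact_mod_cast Finset.card_le_card hsub
  · rw [← Finset.card_pos]
    have : (0 : ℝ) < W.card := by linarith
    exact_mod_cast this
  · rw [← he0]
    exact hWc

lemma iter (h : Conf M n S G T d) (hd : 1 < d) (hn : 0 < n)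
    (hD : 64 * (n : ℝ) ^ 2 * S.card ≤ (d - 1) ^ 2) {F0 : Set α} {V0 : Finset (Set α)}
    (h0 : St M S G T F0 V0 1 2) (hV0 : d ≤ (V0.card : ℝ)) (k : ℕ) (hk : k + 3 ≤ n) :
    ∃ F V, St M S G T F V (((d - 1) ^ 2 / (32 * (n : ℝ) ^ 2 * S.card)) ^ (2 ^ k - 1)) (2 + k) ∧
      (d - 1) / (2 * n) ≤ (V.card : ℝ) := by
  have hd' : 0 < d - 1 := by linarith
  have hnr : (1 : ℝ) ≤ n := by exact_mod_cast hn
  have hn0 : (0 : ℝ) < n := by linarith
  have hL : (0 : ℝ) < S.card := by
    obtain ⟨v, hv⟩ := h0.ne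
    exact_mod_cast Finset.card_pos.2 ⟨v, h0.VS hv⟩
  obtain ⟨u, hu⟩ : ∃ u : ℝ, u = (d - 1) ^ 2 / (32 * (n : ℝ) ^ 2 * S.card) := ⟨_, rfl⟩
  have hu1 : 1 ≤ u := by
    rw [hu, le_div_iff₀ (by positivity)]
    have : (0 : ℝ) ≤ (n : ℝ) ^ 2 * S.card := by positivity
    linarith
  rw [← hu]
  induction k with
  | zero =>
    refine ⟨F0, V0, ?_, ?_⟩
    · simpa using h0
    · refine le_trans ?_ hV0
      rw [div_le_iff₀ (by positivity)]
      nlinarith
  | succ k ih =>
    obtain ⟨F, V, hst, hV⟩ := ih (by omega)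
    have hc1 : 1 ≤ u ^ (2 ^ k - 1) := one_le_pow₀ hu1
    have hbig : 32 * (S.card : ℝ) * n ≤ (V.card : ℝ) * (d - 1) := by
      have h1 : (d - 1) / (2 * n) * (d - 1) ≤ V.card * (d - 1) :=
        mul_le_mul_of_nonneg_right hV hd'.le
      refine le_trans ?_ h1
      rw [div_mul_eq_mul_div, le_div_iff₀ (by positivity)]
      nlinarith
    obtain ⟨F', V', hst', hV'⟩ := step h hst (by omega) (by linarith) hd hbig
    refine ⟨F', V', ?_, ?_⟩
    · have e1 : (u ^ (2 ^ k - 1) * (d - 1) / n) ^ 2 / (32 * (S.card : ℝ)) =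
          u ^ (2 ^ (k + 1) - 1) := by
        have e2 : 2 ^ (k + 1) - 1 = (2 ^ k - 1) * 2 + 1 := by
          have : 1 ≤ 2 ^ k := Nat.one_le_two_pow
          rw [pow_succ]
          omega
        have e4 : u ^ ((2 ^ k - 1) * 2 + 1) = (u ^ (2 ^ k - 1)) ^ 2 * u := by
          rw [pow_succ, pow_mul]
        rw [e2, e4]
        generalize u ^ (2 ^ k - 1) = A
        rw [hu]
        field_simp
      rw [e1] at hst'
      exact hst'
    · refine le_trans ?_ hV'
      have e3 : (d - 1) / (2 * n) = 1 * (d - 1) / n / 2 := by field_simp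
      rw [e3]
      exact div_le_div_of_nonneg_right (div_le_div_of_nonneg_right
        (mul_le_mul_of_nonneg_right hc1 hd'.le) hn0.le) (by norm_num)

open Classical in
lemma base (h : Conf M n S G T d) (hG : G.Nonempty) (hn : 2 ≤ n) :
    ∃ F V, St M S G T F V 1 2 ∧ d ≤ (V.card : ℝ) := by
  obtain ⟨y0, hy0⟩ := hG
  obtain ⟨l0, hl0, _⟩ := h.out y0 hy0 ∅ (by simp)
  have hl0S := h.sub y0 hy0 hl0
  have hl := h.lines l0 hl0S
  have hz : ∀ y ∈ G, ∃ v ∈ T y, ¬ v ⊆ l0 := fun y hy =>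
    h.out y hy l0 (by rw [hl.2]; exact_mod_cast hn)
  choose! z hzT hzl using hz
  have hcard : ((on G T l0).image z).card = (on G T l0).card := by
    apply Finset.card_image_of_injOn
    intro y hy y' hy' hyy
    obtain ⟨hyG, hyl⟩ := mem_on.1 (Finset.mem_coe.1 hy)
    obtain ⟨hyG', hyl'⟩ := mem_on.1 (Finset.mem_coe.1 hy')
    by_contra hne
    apply hzl y hyG
    have h1 : y' ∈ z y := by
      have h2 : z y = z y' := hyy
      rw [h2]
      exact h.mem _ hyG' _ (hzT y' hyG')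
    exact line_sub h.simple (h.lines _ (h.sub _ hyG (hzT y hyG))) hl.1 (h.mem _ hyG _ (hzT y hyG))
      h1 hne (h.mem _ hyG _ hyl) (h.mem _ hyG' _ hyl')
  have hdeg := h.deg y0 hy0 l0 hl0
  refine ⟨l0, (on G T l0).image z, ⟨hl.1, ?_, ?_, ?_, ?_, ?_, ?_⟩, ?_⟩
  · rw [hl.2]; norm_num
  · intro v hv
    obtain ⟨y, hy, rfl⟩ := Finset.mem_image.1 hv
    exact h.sub y (mem_on.1 hy).1 (hzT y (mem_on.1 hy).1)
  · intro v hv
    obtain ⟨y, hy, rfl⟩ := Finset.mem_image.1 hv
    exact hzl y (mem_on.1 hy).1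
  · intro v hv
    obtain ⟨y, hy, rfl⟩ := Finset.mem_image.1 hv
    obtain ⟨hyG, hyl⟩ := mem_on.1 hy
    exact ⟨y, hyG, h.mem y hyG l0 hyl, hzT y hyG⟩
  · intro v hv
    have h1 : v ∈ cls M l0 ((on G T l0).image z) (M.closure (l0 ∪ v)) := mem_cls.2 ⟨hv, rfl⟩
    have h2 := Finset.card_pos.2 ⟨v, h1⟩
    exact_mod_cast h2
  · exact ⟨z y0, Finset.mem_image_of_mem z (mem_on.2 ⟨hy0, hl0⟩)⟩
  · rw [hcard]; exact hdeg

open Classical in
lemma prune (X : Finset α) (T : α → Finset (Set α)) (S : Finset (Set α))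
    (hsub : ∀ y ∈ X, T y ⊆ S) (hL : 0 < S.card) (hX : 0 < X.card) :
    ∃ G ⊆ X, G.Nonempty ∧ ∀ y ∈ G, ∀ v ∈ T y,
      (X.card : ℝ) / (2 * S.card) ≤ ((on G T v).card : ℝ) := by
  have hLr : (0 : ℝ) < S.card := by exact_mod_cast hL
  have hXr : (0 : ℝ) < X.card := by exact_mod_cast hX
  obtain ⟨d0, hd0⟩ : ∃ d0 : ℝ, d0 = (X.card : ℝ) / (2 * S.card) := ⟨_, rfl⟩
  have hd0n : 0 ≤ d0 := by rw [hd0]; positivity
  obtain ⟨φ, hφ⟩ : ∃ φ : Finset α → ℝ, ∀ G, φ G = (G.card : ℝ) - d0 * ((G.biUnion T).card : ℝ) :=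
    ⟨fun G => (G.card : ℝ) - d0 * ((G.biUnion T).card : ℝ), fun G => rfl⟩
  obtain ⟨G, hGmem, hGmax⟩ := Finset.exists_max_image X.powerset φ ⟨X, Finset.mem_powerset_self _⟩
  have hGX := Finset.mem_powerset.1 hGmem
  refine ⟨G, hGX, ?_, ?_⟩
  · have h1 := hGmax X (Finset.mem_powerset_self _)
    rw [hφ, hφ] at h1
    have h2 : (X.biUnion T).card ≤ S.card := Finset.card_le_card (Finset.biUnion_subset.2 hsub)
    have h3 : ((X.biUnion T).card : ℝ) ≤ S.card := by exact_mod_cast h2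
    have h4 : d0 * ((X.biUnion T).card : ℝ) ≤ X.card / 2 := by
      calc _ ≤ d0 * S.card := mul_le_mul_of_nonneg_left h3 hd0n
        _ = X.card / 2 := by rw [hd0]; field_simp
    have h5 : 0 ≤ d0 * ((G.biUnion T).card : ℝ) := by positivity
    have h6 : (0 : ℝ) < G.card := by linarith
    exact Finset.card_pos.1 (by exact_mod_cast h6)
  · intro y hy v hv
    rw [← hd0]
    obtain ⟨G', hG'⟩ : ∃ G', G' = G \ on G T v := ⟨_, rfl⟩
    have h1 := hGmax G' (Finset.mem_powerset.2 (by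
      rw [hG']; exact (Finset.sdiff_subset).trans hGX))
    rw [hφ, hφ] at h1
    have h2 : (G'.biUnion T).card + 1 ≤ (G.biUnion T).card := by
      have hv1 : v ∈ G.biUnion T := Finset.mem_biUnion.2 ⟨y, hy, hv⟩
      have hsub : G'.biUnion T ⊆ (G.biUnion T).erase v := by
        intro w hw
        obtain ⟨x, hx, hwx⟩ := Finset.mem_biUnion.1 hw
        rw [hG'] at hx
        obtain ⟨hxG, hxn⟩ := Finset.mem_sdiff.1 hx
        refine Finset.mem_erase.2 ⟨?_, Finset.mem_biUnion.2 ⟨x, hxG, hwx⟩⟩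
        rintro rfl
        exact hxn (mem_on.2 ⟨hxG, hwx⟩)
      have h3 := Finset.card_le_card hsub
      have h4 := Finset.card_erase_add_one hv1
      omega
    have h2r : ((G'.biUnion T).card : ℝ) + 1 ≤ (G.biUnion T).card := by exact_mod_cast h2
    have h4 : ((on G T v).card : ℝ) + G'.card = G.card := by
      have h7 : on G T v ⊆ G := fun x hx => (mem_on.1 hx).1
      have h5 := Finset.card_sdiff_add_card_eq_card h7
      rw [← hG'] at h5
      have h6 : ((G'.card + (on G T v).card : ℕ) : ℝ) = G.card := by rw [h5]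
      push_cast at h6
      linarith
    have h5 := mul_le_mul_of_nonneg_left h2r hd0n
    linarith

open Classical in
lemma main_ineq (h : Conf M n S G T d) (hG : G.Nonempty) (hn : 4 ≤ n) (hd : 1 < d)
    (hD : 64 * (n : ℝ) ^ 2 * S.card ≤ (d - 1) ^ 2) :
    ((d - 1) ^ 2 / (32 * (n : ℝ) ^ 2 * S.card)) ^ (2 ^ (n - 3) - 1) * (d - 1) ≤ n * S.card := by
  obtain ⟨F0, V0, h0, hV0⟩ := base h hG (by omega)
  obtain ⟨F, V, hst, _⟩ := iter h hd (by omega) hD h0 hV0 (n - 3) (by omega)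
  obtain ⟨v, hv⟩ := hst.ne
  have h1 := class_edges h hst (by omega) hv
  have h2 := hst.fib v hv
  have h3 : ((S.filter (Rel M G T F V (M.closure (F ∪ v)))).card : ℝ) ≤ S.card := by
    exact_mod_cast Finset.card_le_card (Finset.filter_subset _ _)
  calc _ ≤ ((cls M F V (M.closure (F ∪ v))).card : ℝ) * (d - 1) :=
        mul_le_mul_of_nonneg_right h2 (by linarith)
    _ ≤ _ := h1
    _ ≤ _ := mul_le_mul_of_nonneg_left h3 (Nat.cast_nonneg n)

end Run7.h117.JM
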